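import Pool.Agent.Lib.MP_60829e_nt.SL.Ind
import Pool.Agent.Lib.MP_60829e_nt.SL.Main

/-! # The claim with a target -/

open MvPolynomial Module

namespace MP60829e.SP

open MP60829e.ST (Qa Lsp Lt)
open MP60829e.PS
open MP60829e.SB (pt pv cls evl rk NP full red redMap)

/-- The product of the target matrix and the matrix of the coordinates. -/
noncomputable def tm {P ι : Type} [Fintype ι] {r : ℕ} (Θ : P × ι → Qa) (M : ι × Fin r → Qa)
    (q : P × Fin r) : Qa := ∑ i, Θ (q.1, i) * M (i, q.2)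

/-- The linear map of the target matrix. -/
noncomputable def Tm {P ι : Type} [Fintype ι] (Θ : P × ι → Qa) :
    (ι → Qa) →ₗ[Qa] (P → Qa) where
  toFun ρ p := ∑ i, Θ (p, i) * ρ i
  map_add' ρ σ := by
    funext p
    simp only [Pi.add_apply, mul_add, Finset.sum_add_distrib]
  map_smul' c ρ := by
    funext p
    simp only [Pi.smul_apply, smul_eq_mul, RingHom.id_apply, Finset.mul_sum]
    exact Finset.sum_congr rfl fun i _ => by ring

theorem Tm_apply {P ι : Type} [Fintype ι] (Θ : P × ι → Qa) (ρ : ι → Qa) (p : P) :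
    Tm Θ ρ p = ∑ i, Θ (p, i) * ρ i := rfl

theorem cls_tm {I P ι : Type} [Fintype ι] {r : ℕ} (U : Ultrafilter I) (Θ : I → P × ι → Qa)
    (M : I → ι × Fin r → Qa) (q : P × Fin r) :
    (cls U fun a => tm (Θ a) (M a)) q = ∑ i, cls U Θ (q.1, i) * cls U M (i, q.2) := by
  have e1 : (fun a => tm (Θ a) (M a) q) =
      ∑ i, (fun a => Θ a (q.1, i)) * (fun a => M a (i, q.2)) := by
    funext a
    rw [Finset.sum_apply]
    rfl
  show UP.mk U (fun a => tm (Θ a) (M a) q) = _
  rw [e1, map_sum]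
  simp only [map_mul]
  rfl

/-- The rank of the target is at most `c * r` if the target matrices have rank at most `c` and only
`r` columns move. -/
theorem rk_target {I P ι : Type} [Fintype ι] [Fintype P] {r r' c : ℕ} (hr : r ≤ r')
    (U : Ultrafilter I) (Θ : I → P × ι → Qa) (M : I → ι × Fin r' → Qa)
    (Δ : Submodule (UP U Qa) (Derivation Qa (UP U Qa) (UP U Qa)))
    (hΘ : ∀ D ∈ Δ, ∀ q, D (cls U Θ q) = 0)
    (hcol : ∀ D ∈ Δ, ∀ (p : P) (l : Fin r'), r ≤ l →
      D ((cls U fun a => tm (Θ a) (M a)) (p, l)) = 0)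
    (hrank : ∀ᶠ a in (U : Filter I), finrank Qa (LinearMap.range (Tm (Θ a))) ≤ c) :
    rk Δ (cls U fun a => tm (Θ a) (M a)) ≤ c * r := by
  classical
  -- the space of the columns
  obtain ⟨col, hcoldef⟩ : ∃ col : ι → P → UP U Qa, col = fun i p => cls U Θ (p, i) := ⟨_, rfl⟩
  obtain ⟨Col, hCol⟩ : ∃ Col : Submodule (UP U Qa) (P → UP U Qa),
      Col = Submodule.span (UP U Qa) (Set.range col) := ⟨_, rfl⟩
  have hfin : finrank (UP U Qa) Col ≤ c := by
    by_contra hcon
    push Not at hcon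
    obtain ⟨κ, f, hf, hsp, hli⟩ := exists_linearIndependent' (UP U Qa) col
    have : Finite κ := Finite.of_injective f hf
    have : Fintype κ := Fintype.ofFinite κ
    have hcard : c + 1 ≤ Fintype.card κ := by
      rw [hCol, ← hsp, finrank_span_eq_card hli] at hcon
      exact hcon
    obtain ⟨g⟩ : Nonempty (Fin (c + 1) ↪ κ) := by
      refine ⟨(Fin.castLEEmb hcard).trans (Fintype.equivFin κ).symm.toEmbedding⟩
    have hli2 := hli.comp g g.injective
    have h1 : ∀ᶠ a in (U : Filter I), LinearIndependent Qa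
        (fun s : Fin (c + 1) => fun p => Θ a (p, f (g s))) := by
      refine SB.eventually_li U (fun a s p => Θ a (p, f (g s))) ?_
      have h2 : (fun s : Fin (c + 1) => cls U fun a => fun p => Θ a (p, f (g s))) =
          (col ∘ f) ∘ g := by
        funext s p
        rw [hcoldef]
        rfl
      rw [h2]
      exact hli2
    obtain ⟨a, ha1, ha2⟩ := (h1.and hrank).exists
    have h3 : LinearIndependent Qa (fun s : Fin (c + 1) =>
        (⟨fun p => Θ a (p, f (g s)), ⟨Pi.single (f (g s)) 1, by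
          funext p
          rw [Tm_apply, Finset.sum_eq_single (f (g s))]
          · rw [Pi.single_eq_same, mul_one]
          · intro i _ hi
            rw [Pi.single_eq_of_ne hi, mul_zero]
          · intro h
            exact absurd (Finset.mem_univ _) h⟩⟩ : LinearMap.range (Tm (Θ a)))) := by
      apply LinearIndependent.of_comp (LinearMap.range (Tm (Θ a))).subtype
      exact ha1
    have h4 := h3.fintype_card_le_finrank
    rw [Fintype.card_fin] at h4
    omega
  -- the image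
  unfold SB.rk
  obtain ⟨W, hW⟩ : ∃ W : Submodule (UP U Qa) (P × Fin r' → UP U Qa),
      W = Δ.map (evl (cls U fun a => tm (Θ a) (M a))) := ⟨_, rfl⟩
  rw [← hW]
  have hW1 : ∀ y ∈ W, ∀ l : Fin r', (fun p => y (p, l)) ∈ Col := by
    intro y hy l
    rw [hW] at hy
    obtain ⟨D, hD, rfl⟩ := hy
    have h1 : (fun p => evl (cls U fun a => tm (Θ a) (M a)) D (p, l)) =
        ∑ i, D (cls U M (i, l)) • col i := by
      funext p
      rw [SB.evl_apply, cls_tm, map_sum, Finset.sum_apply]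
      refine Finset.sum_congr rfl fun i _ => ?_
      rw [Derivation.leibniz, hΘ D hD, smul_zero, add_zero, Pi.smul_apply, hcoldef,
        smul_eq_mul, smul_eq_mul, mul_comm]
    rw [h1, hCol]
    exact Submodule.sum_mem _ fun i _ => Submodule.smul_mem _ _ (Submodule.subset_span ⟨i, rfl⟩)
  have hW2 : ∀ y ∈ W, ∀ (p : P) (l : Fin r'), r ≤ l → y (p, l) = 0 := by
    intro y hy p l hl
    rw [hW] at hy
    obtain ⟨D, hD, rfl⟩ := hy
    exact hcol D hD p l hl
  let ψ : W →ₗ[UP U Qa] (Fin r → Col) :=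
    { toFun := fun y l => ⟨fun p => (y : P × Fin r' → UP U Qa) (p, Fin.castLE hr l),
        hW1 y.1 y.2 _⟩
      map_add' := fun y y' => rfl
      map_smul' := fun c y => rfl }
  have hψ : Function.Injective ψ := by
    intro y y' h
    apply Subtype.ext
    funext q
    obtain ⟨p, l⟩ := q
    by_cases hl : r ≤ l
    · rw [hW2 y.1 y.2 p l hl, hW2 y'.1 y'.2 p l hl]
    · have h1 := congrFun h (⟨l, by omega⟩ : Fin r)
      exact congrFun (congrArg Subtype.val h1) p
  have h1 := LinearMap.finrank_le_finrank_of_injective hψ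
  have h2 : finrank (UP U Qa) (Fin r → Col) = r * finrank (UP U Qa) Col := by
    rw [Module.finrank_pi_fintype, Finset.sum_const, Finset.card_univ, Fintype.card_fin,
      smul_eq_mul]
  rw [h2] at h1
  refine h1.trans ?_
  rw [mul_comm c r]
  exact Nat.mul_le_mul_left _ hfin

/-- The condition on the rational subspaces. -/
def NoT {ζ ι P T : Type} [Fintype ι] (F : T → MvPolynomial (ζ ⊕ ι) ℂ) (j : ℕ) (z : ζ → Qa)
    (x : ι → ℂ) (Θ : P × ι → Qa) : Prop :=
  ∀ R : Submodule Qa (ι → Qa),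
    (∀ ρ ∈ R, ∀ i, eval (pv z fun t => x t + (ρ t : ℂ)) (F i) = 0) →
    finrank Qa (R.map (Tm Θ)) ≤ j

/-- The target after the elimination. -/
noncomputable def tt {P ι : Type} (Q : Finset ι) (γ : {j // j ∉ Q} × {i // i ∈ Q} → Qa)
    (Θ : P × ι → Qa) (q : P × {j // j ∉ Q}) : Qa :=
  Θ (q.1, q.2.1) - ∑ i : {i // i ∈ Q}, Θ (q.1, i.1) * γ (q.2, i)

theorem sum_splitQ {R : Type} [AddCommMonoid R] {ι : Type} [Fintype ι] [DecidableEq ι]
    (Q : Finset ι) (f : ι → R) :
    ∑ i, f i = ∑ i : {i // i ∈ Q}, f i.1 + ∑ j : {j // j ∉ Q}, f j.1 := by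
  rw [← Fintype.sum_subtype_add_sum_subtype (fun i => i ∈ Q)]
  congr 1
  refine Finset.sum_congr ?_ fun _ _ => rfl
  ext i
  simp

theorem tm_split {P ι : Type} [Fintype ι] [DecidableEq ι] {r : ℕ} (Q : Finset ι)
    (γ : {j // j ∉ Q} × {i // i ∈ Q} → Qa) (Θ : P × ι → Qa) (M : ι × Fin r → Qa)
    (b : {i // i ∈ Q} × Fin r → Qa)
    (hb : ∀ i l, b (i, l) = M (i.1, l) + ∑ j, γ (j, i) * M (j.1, l)) (q : P × Fin r) :
    tm Θ M q = ∑ i : {i // i ∈ Q}, Θ (q.1, i.1) * b (i, q.2) +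
      tm (tt Q γ Θ) (fun s : {j // j ∉ Q} × Fin r => M (s.1.1, s.2)) q := by
  unfold tm tt
  rw [sum_splitQ Q]
  simp only [hb, mul_add, sub_mul, Finset.sum_add_distrib, Finset.sum_sub_distrib,
    Finset.mul_sum, Finset.sum_mul]
  rw [Finset.sum_comm (f := fun (i : {i // i ∈ Q}) (j : {j // j ∉ Q}) =>
    Θ (q.1, i.1) * (γ (j, i) * M (j.1, q.2)))]
  have h1 : ∑ j : {j // j ∉ Q}, ∑ i : {i // i ∈ Q}, Θ (q.1, i.1) * (γ (j, i) * M (j.1, q.2)) =
      ∑ j : {j // j ∉ Q}, ∑ i : {i // i ∈ Q}, Θ (q.1, i.1) * γ (j, i) * M (j.1, q.2) :=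
    Finset.sum_congr rfl fun j _ => Finset.sum_congr rfl fun i _ => by ring
  rw [h1]
  ring

theorem Tm_red {P ι : Type} [Fintype ι] [DecidableEq ι] (Q : Finset ι)
    (γ : {j // j ∉ Q} × {i // i ∈ Q} → Qa) (Θ : P × ι → Qa) :
    (Tm Θ).comp (redMap Q γ) = Tm (tt Q γ Θ) := by
  refine LinearMap.ext fun ρ => ?_
  funext p
  rw [LinearMap.comp_apply, Tm_apply, Tm_apply, sum_splitQ Q]
  unfold tt
  have h1 : ∀ i : {i // i ∈ Q}, Θ (p, i.1) * redMap Q γ ρ i.1 =
      - ∑ j : {j // j ∉ Q}, Θ (p, i.1) * γ (j, i) * ρ j := by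
    intro i
    rw [SB.redMap_apply, dif_pos i.2, mul_neg, Finset.mul_sum]
    congr 1
    exact Finset.sum_congr rfl fun j _ => by ring
  have h2 : ∀ j : {j // j ∉ Q}, Θ (p, j.1) * redMap Q γ ρ j.1 = Θ (p, j.1) * ρ j := by
    intro j
    rw [SB.redMap_apply, dif_neg j.2]
  rw [Finset.sum_congr rfl fun i _ => h1 i, Finset.sum_congr rfl fun j _ => h2 j,
    Finset.sum_neg_distrib, Finset.sum_comm]
  simp only [sub_mul, Finset.sum_sub_distrib, Finset.sum_mul]
  ring

/-- The claim. -/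
theorem claimP {I : Type} {r r' : ℕ} (hr : r ≤ r') (lam : Fin r' → ℂ)
    (hlam : LinearIndependent Qa lam) (hlog : ∀ j, lam j ∈ Lsp) (U : Ultrafilter I) (j : ℕ)
    {P : Type} [Fintype P] (m : ℕ) :
    ∀ (ζ ι : Type) [Fintype ζ] [Fintype ι] (_ : Fintype.card ι = m) {T : Type} [Finite T]
      (F : T → MvPolynomial (ζ ⊕ ι) ℂ) (z : I → ζ → Qa) (M : I → ι × Fin r' → Qa)
      (Θ : I → P × ι → Qa)
      (Δ : Submodule (UP U Qa) (Derivation Qa (UP U Qa) (UP U Qa)))
      (_ : ∀ D ∈ Δ, ∀ t, D (cls U z t) = 0) (_ : ∀ D ∈ Δ, ∀ q, D (cls U Θ q) = 0)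
      (_ : ∀ D ∈ Δ, ∀ (p : P) (l : Fin r'), r ≤ l →
        D ((cls U fun a => tm (Θ a) (M a)) (p, l)) = 0)
      (_ : ∀ᶠ a in (U : Filter I), ∀ i, eval (pv (z a) (pt lam (M a))) (F i) = 0)
      (_ : ∀ᶠ a in (U : Filter I), NoT F j (z a) (pt lam (M a)) (Θ a)),
      rk Δ (cls U fun a => tm (Θ a) (M a)) ≤ j * r + (m - j) * (m - 1) := by
  classical
  induction m using Nat.strong_induction_on with
  | _ m ih =>
  intro ζ ι _ _ hcard T _ F z M Θ Δ hz hΘ hcol hF hR
  by_cases hrm : r ≤ m - 1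
  · have h2 := rk_target (c := m) hr U Θ M Δ hΘ hcol (Filter.Eventually.of_forall fun a => by
      refine (LinearMap.finrank_range_le _).trans ?_
      rw [Module.finrank_pi, hcard])
    have h3 : m * r ≤ (j + (m - j)) * r := Nat.mul_le_mul_right r (by omega)
    have h4 : (m - j) * r ≤ (m - j) * (m - 1) := Nat.mul_le_mul_left _ hrm
    rw [add_mul] at h3
    omega
  by_cases hA : ∀ᶠ a in (U : Filter I), ∀ i x, eval (pv (z a) x) (F i) = 0
  · have h2 := rk_target (c := j) hr U Θ M Δ hΘ hcol (by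
      filter_upwards [hA, hR] with a ha1 ha2
      have h1 := ha2 ⊤ fun ρ _ i => ha1 i _
      rwa [Submodule.map_top] at h1)
    exact h2.trans (Nat.le_add_right _ _)
  · rw [← Ultrafilter.eventually_not] at hA
    have hB : ∀ᶠ a in (U : Filter I), ∃ i, ∃ x, eval (pv (z a) x) (F i) ≠ 0 := by
      filter_upwards [hA] with a ha
      push Not at ha
      exact ha
    obtain ⟨i0, hi0⟩ := SL.pick_ex U _ hB
    obtain ⟨S, hS⟩ := SB.exists_iter (F i0)
    have hC : ∀ᶠ a in (U : Filter I), ∃ G : {G // G ∈ S},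
        eval (pv (z a) (pt lam (M a))) G.1 = 0 ∧
          ∃ t, eval (pv (z a) (pt lam (M a))) (pderiv (Sum.inr t) G.1) ≠ 0 := by
      filter_upwards [hi0, hF] with a ha1 ha2
      obtain ⟨x, hx⟩ := ha1
      obtain ⟨G, hGS, h2, h3⟩ := hS _ _ _ (ha2 i0) hx
      exact ⟨⟨G, hGS⟩, h2, h3⟩
    obtain ⟨⟨G, hGS⟩, hG⟩ := SL.pick_ex U _ hC
    have hE : ∀ᶠ a in (U : Filter I), ∃ Q : Finset ι, Q.Nonempty ∧
        LinearIndependent Qa (fun i : {i // i ∈ Q} => (⊥ : Submodule Qa ℂ).mkQ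
          (eval (pv (z a) (pt lam (M a))) (pderiv (Sum.inr i.1) G))) ∧
        ∃ γ : {j // j ∉ Q} × {i // i ∈ Q} → Qa, ∀ j : {j // j ∉ Q},
          eval (pv (z a) (pt lam (M a))) (pderiv (Sum.inr j.1) G) -
            ∑ i : {i // i ∈ Q}, γ (j, i) • eval (pv (z a) (pt lam (M a)))
              (pderiv (Sum.inr i.1) G) ∈ (⊥ : Submodule Qa ℂ) := by
      filter_upwards [hG] with a ha
      obtain ⟨t, ht⟩ := ha.2
      exact SL.exists_subA ⊥ (fun t => eval (pv (z a) (pt lam (M a))) (pderiv (Sum.inr t) G))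
        ⟨t, by rwa [Submodule.mem_bot]⟩
    obtain ⟨Q, hQ⟩ := SL.pick_ex U _ hE
    have hQne : Q.Nonempty := by
      obtain ⟨a, ha⟩ := hQ.exists
      exact ha.1
    obtain ⟨γ, hγ⟩ : ∃ γ : I → {j // j ∉ Q} × {i // i ∈ Q} → Qa, ∀ᶠ a in (U : Filter I),
        ∀ j : {j // j ∉ Q}, eval (pv (z a) (pt lam (M a))) (pderiv (Sum.inr j.1) G) -
            ∑ i : {i // i ∈ Q}, γ a (j, i) • eval (pv (z a) (pt lam (M a)))
              (pderiv (Sum.inr i.1) G) ∈ (⊥ : Submodule Qa ℂ) := by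
      refine ⟨fun a => if h : ∃ γ : {j // j ∉ Q} × {i // i ∈ Q} → Qa, ∀ j : {j // j ∉ Q},
          eval (pv (z a) (pt lam (M a))) (pderiv (Sum.inr j.1) G) -
            ∑ i : {i // i ∈ Q}, γ (j, i) • eval (pv (z a) (pt lam (M a)))
              (pderiv (Sum.inr i.1) G) ∈ (⊥ : Submodule Qa ℂ) then h.choose else 0, ?_⟩
      filter_upwards [hQ] with a ha
      rw [dif_pos ha.2.2]
      exact ha.2.2.choose_spec
    obtain ⟨b, hb⟩ : ∃ b : I → {i // i ∈ Q} × Fin r' → Qa, ∀ a i l,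
        b a (i, l) = M a (i.1, l) + ∑ j : {j // j ∉ Q}, γ a (j, i) * M a (j.1, l) :=
      ⟨fun a p => M a (p.1.1, p.2) + ∑ j : {j // j ∉ Q}, γ a (j, p.1) * M a (j.1, p.2),
        fun a i l => rfl⟩
    obtain ⟨M', hM'⟩ : ∃ M' : I → {j // j ∉ Q} × Fin r' → Qa,
        M' = fun a s => M a (s.1.1, s.2) := ⟨_, rfl⟩
    obtain ⟨Θ', hΘ'⟩ : ∃ Θ' : I → P × {j // j ∉ Q} → Qa, Θ' = fun a => tt Q (γ a) (Θ a) :=
      ⟨_, rfl⟩
    obtain ⟨Δ1, hΔ1⟩ : ∃ Δ1, Δ1 = Δ ⊓ LinearMap.ker (evl (cls U γ)) := ⟨_, rfl⟩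
    obtain ⟨Δ2, hΔ2⟩ : ∃ Δ2, Δ2 = Δ1 ⊓ LinearMap.ker (evl (cls U b)) := ⟨_, rfl⟩
    have hk : ∀ D ∈ Δ1, D ∈ Δ := fun D hD => by
      rw [hΔ1] at hD
      exact hD.1
    have hk1 : ∀ D ∈ Δ1, ∀ p, D (cls U γ p) = 0 := by
      intro D hD p
      rw [hΔ1] at hD
      exact congrFun (LinearMap.mem_ker.1 hD.2) p
    have hk2 : ∀ D ∈ Δ2, D ∈ Δ1 := fun D hD => by
      rw [hΔ2] at hD
      exact hD.1
    have hk3 : ∀ D ∈ Δ2, ∀ p, D (cls U b p) = 0 := by
      intro D hD p
      rw [hΔ2] at hD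
      exact congrFun (LinearMap.mem_ker.1 hD.2) p
    have k1 : rk Δ (cls U fun a => tm (Θ a) (M a)) ≤
        rk Δ1 (cls U fun a => tm (Θ a) (M a)) + rk Δ (cls U γ) := by
      rw [hΔ1]
      exact SB.rk_split Δ _ _
    have k2 : rk Δ1 (cls U fun a => tm (Θ a) (M a)) ≤
        rk Δ2 (cls U fun a => tm (Θ a) (M a)) + rk Δ1 (cls U b) := by
      rw [hΔ2]
      exact SB.rk_split Δ1 _ _
    have k3 : rk Δ1 (cls U b) ≤ Q.card * (Q.card - 1) :=
      SL.rk_bG lam hlog U (⊥ : Submodule Qa ℂ) ⊥ (by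
        intro c hc t _
        rw [Submodule.mem_bot] at hc ⊢
        rw [hc, zero_mul]) (SL.cnt_zero SL.hpc lam hlam hlog) G z M
        (hG.mono fun a ha => by
          rw [Submodule.mem_bot]
          exact ha.1) Q γ (hQ.mono fun a ha => ha.2.1) hγ b hb Δ1
        (fun D hD => hz D (hk D hD)) hk1
    have hc : Fintype.card {j // j ∉ Q} = m - Q.card := by
      rw [Fintype.card_subtype_compl, Fintype.card_coe, hcard]
    have hQc : Q.card ≤ m := by
      rw [← hcard]
      exact Finset.card_le_univ Q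
    have hQ1 : 1 ≤ Q.card := Finset.card_pos.2 hQne
    have k4 : rk Δ (cls U γ) ≤ Q.card * (m - Q.card) := by
      refine (SB.rk_le_card Δ (cls U γ)).trans ?_
      rw [Fintype.card_prod, Fintype.card_coe, hc, mul_comm]
    -- the target after the elimination
    have hsplit : ∀ q, (cls U fun a => tm (Θ a) (M a)) q =
        ∑ i : {i // i ∈ Q}, cls U Θ (q.1, i.1) * cls U b (i, q.2) +
          (cls U fun a => tm (Θ' a) (M' a)) q := by
      intro q
      have e1 : (fun a => tm (Θ a) (M a) q) =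
          ∑ i : {i // i ∈ Q}, (fun a => Θ a (q.1, i.1)) * (fun a => b a (i, q.2)) +
            fun a => tm (Θ' a) (M' a) q := by
        funext a
        rw [Pi.add_apply, Finset.sum_apply, hΘ', hM']
        exact tm_split Q (γ a) (Θ a) (M a) (b a) (hb a) q
      show UP.mk U (fun a => tm (Θ a) (M a) q) = _
      rw [e1, map_add, map_sum]
      simp only [map_mul]
      rfl
    have hD2 : ∀ D ∈ Δ2, ∀ q, D ((cls U fun a => tm (Θ a) (M a)) q) =
        D ((cls U fun a => tm (Θ' a) (M' a)) q) := by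
      intro D hD q
      rw [hsplit q, map_add, map_sum]
      have e1 : ∀ i : {i // i ∈ Q}, D (cls U Θ (q.1, i.1) * cls U b (i, q.2)) = 0 := by
        intro i
        rw [Derivation.leibniz, hΘ D (hk D (hk2 D hD)), hk3 D hD, smul_zero, smul_zero,
          add_zero]
      rw [Finset.sum_eq_zero fun i _ => e1 i, zero_add]
    have k5 : rk Δ2 (cls U fun a => tm (Θ a) (M a)) ≤
        rk Δ2 (cls U fun a => tm (Θ' a) (M' a)) := by
      refine SB.rk_le_of_forall Δ2 _ _ fun D hD h q => ?_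
      rw [hD2 D hD q]
      exact h q
    have hΘ2 : ∀ D ∈ Δ2, ∀ q, D (cls U Θ' q) = 0 := by
      intro D hD q
      have e1 : cls U Θ' q = cls U Θ (q.1, q.2.1) -
          ∑ i : {i // i ∈ Q}, cls U Θ (q.1, i.1) * cls U γ (q.2, i) := by
        have e2 : (fun a => Θ' a q) = (fun a => Θ a (q.1, q.2.1)) -
            ∑ i : {i // i ∈ Q}, (fun a => Θ a (q.1, i.1)) * (fun a => γ a (q.2, i)) := by
          funext a
          rw [Pi.sub_apply, Finset.sum_apply, hΘ']
          rfl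
        show UP.mk U (fun a => Θ' a q) = _
        rw [e2, map_sub, map_sum]
        simp only [map_mul]
        rfl
      rw [e1, map_sub, map_sum, hΘ D (hk D (hk2 D hD)), zero_sub, neg_eq_zero]
      refine Finset.sum_eq_zero fun i _ => ?_
      rw [Derivation.leibniz, hΘ D (hk D (hk2 D hD)), hk1 D (hk2 D hD), smul_zero, smul_zero,
        add_zero]
    have hcol2 : ∀ D ∈ Δ2, ∀ (p : P) (l : Fin r'), r ≤ l →
        D ((cls U fun a => tm (Θ' a) (M' a)) (p, l)) = 0 := by
      intro D hD p l hl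
      rw [← hD2 D hD]
      exact hcol D (hk D (hk2 D hD)) p l hl
    have k6 : rk Δ2 (cls U fun a => tm (Θ' a) (M' a)) ≤
        j * r + (m - Q.card - j) * (m - Q.card - 1) := by
      refine ih (m - Q.card) (by omega) (NP ζ ι Q r') {j // j ∉ Q} hc
        (fun i => red lam Q (F i)) (fun a => Sum.elim (z a) (Sum.elim (γ a) (b a))) M' Θ' Δ2
        ?_ hΘ2 hcol2 ?_ ?_
      · rintro D hD (t | p | p)
        · exact hz D (hk D (hk2 D hD)) t
        · exact hk1 D (hk2 D hD) p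
        · exact hk3 D hD p
      · filter_upwards [hF] with a ha i
        rw [hM', SB.eval_red, SB.full_pt lam Q (γ a) (M a) (b a) (hb a)]
        exact ha i
      · filter_upwards [hR] with a ha
        intro R' h1
        have h2 := ha (R'.map (redMap Q (γ a))) (by
          rintro _ ⟨ρ, hρ, rfl⟩ i
          have h3 := h1 ρ hρ i
          rw [hM', SB.eval_red, SB.full_add, SB.full_pt lam Q (γ a) (M a) (b a) (hb a)] at h3
          exact h3)
        rw [← Submodule.map_comp, Tm_red] at h2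
        rw [hΘ']
        exact h2
    -- the trivial bound after the elimination
    have k7 : rk Δ2 (cls U fun a => tm (Θ' a) (M' a)) ≤ (m - Q.card) * r :=
      rk_target hr U Θ' M' Δ2 hΘ2 hcol2 (Filter.Eventually.of_forall fun a => by
        refine (LinearMap.finrank_range_le _).trans ?_
        rw [Module.finrank_pi, hc])
    -- numbers
    obtain ⟨e, he⟩ : ∃ e, e = Q.card := ⟨_, rfl⟩
    rw [← he] at k3 k4 k6 k7 hQc hQ1
    obtain ⟨d, rfl⟩ : ∃ d, m = d + e := ⟨m - e, by omega⟩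
    have hd : d + e - e = d := by omega
    rw [hd] at k4 k6 k7
    obtain ⟨f, rfl⟩ : ∃ f, e = f + 1 := ⟨e - 1, by omega⟩
    have hf1 : f + 1 - 1 = f := by omega
    have hf2 : d + (f + 1) - 1 = d + f := by omega
    rw [hf1] at k3
    rw [hf2] at hrm ⊢
    have key : rk Δ (cls U fun a => tm (Θ a) (M a)) ≤
        rk Δ2 (cls U fun a => tm (Θ' a) (M' a)) + (f + 1) * (d + f) := by
      have h1 : (f + 1) * (d + f) = (f + 1) * d + (f + 1) * f := by ring
      omega
    rcases Nat.lt_or_ge d j with hdj | hdj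
    · -- use the trivial bound
      rcases Nat.lt_or_ge (d + (f + 1)) j with hdj2 | hdj2
      · have h1 : (d + (f + 1)) * r ≤ j * r := Nat.mul_le_mul_right _ hdj2.le
        have h2 : (f + 1) * (d + f) ≤ (f + 1) * r := Nat.mul_le_mul_left _ (by omega)
        rw [add_mul] at h1
        omega
      · obtain ⟨g, rfl⟩ : ∃ g, j = d + g := ⟨j - d, by omega⟩
        have h1 : d + (f + 1) - (d + g) = f + 1 - g := by omega
        rw [h1]
        obtain ⟨h, hh⟩ : ∃ h, f + 1 = h + g := ⟨f + 1 - g, by omega⟩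
        have h2 : f + 1 - g = h := by omega
        rw [h2]
        have h3 : g * (d + f) ≤ g * r := Nat.mul_le_mul_left _ (by omega)
        have h4 : (f + 1) * (d + f) = h * (d + f) + g * (d + f) := by rw [hh]; ring
        have h5 : (d + g) * r = d * r + g * r := by ring
        omega
    · obtain ⟨g, rfl⟩ : ∃ g, d = j + g := ⟨d - j, by omega⟩
      have h1 : j + g - j = g := by omega
      have h2 : j + g + (f + 1) - j = g + (f + 1) := by omega
      rw [h1] at k6
      rw [h2]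
      have h3 : g * (j + g - 1) ≤ g * (j + g + f) := Nat.mul_le_mul_left _ (by omega)
      have h4 : (g + (f + 1)) * (j + g + f) = g * (j + g + f) + (f + 1) * (j + g + f) := by ring
      omega

end MP60829e.SP
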