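import Pool.Agent.Lib.MP_60829e_nt.SL.HypL
import Pool.Agent.Lib.MP_60829e_nt.HS.Main

/-! # Finiteness of the logarithms in a linear relation -/

open Module

namespace MP60829e.SP

open MP60829e.ST (Qa Lsp Lt)

/-- The linear forms `v` in `1` and logarithms with `∑ ω e * v e = 0`, for independent `ω e`, have
coordinates in a finite-dimensional space. -/
theorem fin_L0 {q : ℕ} (ω : Fin q → ℂ) (hω : LinearIndependent Qa ω) :
    ∃ L0 : Submodule Qa ℂ, FiniteDimensional Qa L0 ∧ L0 ≤ Lt ∧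
      ∀ v : Fin q → ℂ, (∀ e, v e ∈ Lt) → ∑ e, ω e * v e = 0 → ∀ e, v e ∈ L0 := by
  classical
  let V : Submodule Qa (Fin q → ℂ) :=
    { carrier := {v | (∀ e, v e ∈ Lt) ∧ ∑ e, ω e * v e = 0}
      zero_mem' := ⟨fun _ => Lt.zero_mem, by simp⟩
      add_mem' := by
        rintro v w ⟨h1, h2⟩ ⟨h1', h2'⟩
        refine ⟨fun e => Lt.add_mem (h1 e) (h1' e), ?_⟩
        simp only [Pi.add_apply, mul_add, Finset.sum_add_distrib, h2, h2', add_zero]
      smul_mem' := by
        rintro c v ⟨h1, h2⟩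
        refine ⟨fun e => Lt.smul_mem c (h1 e), ?_⟩
        simp only [Pi.smul_apply, mul_smul_comm, ← Finset.smul_sum, h2, smul_zero] }
  have hV : ∀ v, v ∈ V ↔ (∀ e, v e ∈ Lt) ∧ ∑ e, ω e * v e = 0 := fun v => Iff.rfl
  -- the map to the quotient
  let φ : (Fin q → ℂ) →ₗ[Qa] (Fin q → ℂ ⧸ Lsp) := LinearMap.compLeft Lsp.mkQ (Fin q)
  have hφ : ∀ v e, φ v e = Lsp.mkQ (v e) := fun v e => rfl
  have hker : V ⊓ LinearMap.ker φ ≤ V := inf_le_left
  have h0 := HS.hps ω hω (V ⊓ LinearMap.ker φ) (by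
    rintro v ⟨-, hv⟩ e
    have h1 := congrFun (LinearMap.mem_ker.1 hv) e
    rw [hφ, Submodule.mkQ_apply, Pi.zero_apply, Submodule.Quotient.mk_eq_zero] at h1
    exact h1) (fun v hv => hv.1.2)
  have himg : V.map φ ≤ Submodule.pi Set.univ fun _ : Fin q =>
      Submodule.span Qa {Lsp.mkQ (1 : ℂ)} := by
    rintro _ ⟨v, hv, rfl⟩
    rw [Submodule.mem_pi]
    intro e _
    obtain ⟨β, l, hl, hvl⟩ := SL.mem_Lt (hv.1 e)
    rw [hφ, hvl, map_add]
    have h1 : Lsp.mkQ l = 0 := by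
      rw [Submodule.mkQ_apply, Submodule.Quotient.mk_eq_zero]
      exact hl
    have h2 : (β : ℂ) = β • (1 : ℂ) := by rw [SL.smul_eq, mul_one]
    rw [h1, add_zero, h2, map_smul]
    exact Submodule.smul_mem _ _ (Submodule.mem_span_singleton_self _)
  have hfs : FiniteDimensional Qa (Submodule.pi Set.univ fun _ : Fin q =>
      Submodule.span Qa {Lsp.mkQ (1 : ℂ)}) := by
    let g : (Fin q → Qa) →ₗ[Qa] (Fin q → ℂ ⧸ Lsp) :=
      LinearMap.compLeft (LinearMap.toSpanSingleton Qa _ (Lsp.mkQ (1 : ℂ))) (Fin q)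
    have hg : (Submodule.pi Set.univ fun _ : Fin q => Submodule.span Qa {Lsp.mkQ (1 : ℂ)}) ≤
        LinearMap.range g := by
      intro v hv
      rw [Submodule.mem_pi] at hv
      have h1 : ∀ e, ∃ c : Qa, c • Lsp.mkQ (1 : ℂ) = v e := fun e =>
        Submodule.mem_span_singleton.1 (hv e (Set.mem_univ e))
      choose c hc using h1
      exact ⟨c, funext hc⟩
    exact Submodule.finiteDimensional_of_le hg
  have hVfg : V.FG := by
    refine Submodule.fg_of_fg_map_of_fg_inf_ker φ ?_ ?_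
    · have : FiniteDimensional Qa (V.map φ) := Submodule.finiteDimensional_of_le himg
      exact (Submodule.fg_iff_finiteDimensional _).2 this
    · have : FiniteDimensional Qa (V ⊓ LinearMap.ker φ : Submodule Qa (Fin q → ℂ)) := h0.1
      exact (Submodule.fg_iff_finiteDimensional _).2 this
  refine ⟨⨆ e : Fin q, V.map (LinearMap.proj e), ?_, ?_, ?_⟩
  · rw [← Submodule.fg_iff_finiteDimensional]
    exact Submodule.fg_iSup _ fun e => hVfg.map _
  · refine iSup_le fun e => ?_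
    rintro _ ⟨v, hv, rfl⟩
    exact hv.1 e
  · intro v h1 h2 e
    exact Submodule.mem_iSup_of_mem e ⟨v, ⟨h1, h2⟩, rfl⟩

/-- Extension of an independent family of linear forms in logarithms. -/
theorem exists_extL {r : ℕ} (lam : Fin r → ℂ) (hlam : LinearIndependent Qa lam)
    (hlog : ∀ j, lam j ∈ Lsp) (q : ℕ) : ∀ v : Fin q → ℂ, (∀ i, v i ∈ Lsp) →
    ∃ (r' : ℕ) (hr : r ≤ r') (lam' : Fin r' → ℂ), (∀ i : Fin r, lam' (Fin.castLE hr i) = lam i) ∧
      LinearIndependent Qa lam' ∧ (∀ j, lam' j ∈ Lsp) ∧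
        ∀ i, v i ∈ Submodule.span Qa (Set.range lam') := by
  classical
  induction q with
  | zero =>
    intro v _
    exact ⟨r, le_rfl, lam, fun i => rfl, hlam, hlog, fun i => i.elim0⟩
  | succ q ih =>
    intro v hv
    obtain ⟨r', hr, lam', h1, h2, h3, h4⟩ := ih (fun i => v i.castSucc) fun i => hv _
    by_cases hm : v (Fin.last q) ∈ Submodule.span Qa (Set.range lam')
    · refine ⟨r', hr, lam', h1, h2, h3, fun i => ?_⟩
      exact Fin.lastCases hm (fun i => h4 i) i
    · refine ⟨r' + 1, hr.trans (Nat.le_succ _), Fin.snoc (α := fun _ => ℂ) lam' (v (Fin.last q)),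
        fun i => ?_, ?_, fun j => ?_, fun i => ?_⟩
      · have : Fin.castLE (hr.trans (Nat.le_succ r')) i = (Fin.castLE hr i).castSucc := rfl
        rw [this, Fin.snoc_castSucc]
        exact h1 i
      · exact linearIndependent_finSnoc.2 ⟨h2, hm⟩
      · refine Fin.lastCases ?_ (fun j => ?_) j
        · rw [Fin.snoc_last]
          exact hv _
        · rw [Fin.snoc_castSucc]
          exact h3 j
      · refine Fin.lastCases ?_ (fun i => ?_) i
        · refine Submodule.subset_span ⟨Fin.last r', ?_⟩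
          rw [Fin.snoc_last]
        · have h5 : Submodule.span Qa (Set.range lam') ≤ Submodule.span Qa (Set.range
              (Fin.snoc (α := fun _ => ℂ) lam' (v (Fin.last q)) : Fin (r' + 1) → ℂ)) := by
            rw [Submodule.span_le]
            rintro _ ⟨j, rfl⟩
            refine Submodule.subset_span ⟨j.castSucc, ?_⟩
            rw [Fin.snoc_castSucc]
          exact h5 (h4 i)

/-- A finite-dimensional space of linear forms in `1` and logarithms is contained in the span of `1`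
and finitely many logarithms, which extend `lam`. -/
theorem exists_ext0 {r : ℕ} (lam : Fin r → ℂ) (hlam : LinearIndependent Qa lam)
    (hlog : ∀ j, lam j ∈ Lsp) (L0 : Submodule Qa ℂ) (hfin : FiniteDimensional Qa L0)
    (hL0 : L0 ≤ Lt) :
    ∃ (r' : ℕ) (hr : r ≤ r') (lam' : Fin r' → ℂ), (∀ i : Fin r, lam' (Fin.castLE hr i) = lam i) ∧
      LinearIndependent Qa lam' ∧ (∀ j, lam' j ∈ Lsp) ∧
        ∀ t ∈ L0, ∃ (c : Qa) (y : Fin r' → Qa), t = (c : ℂ) + ∑ l, y l • lam' l := by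
  classical
  let b := finBasis Qa L0
  have h1 : ∀ i, ∃ β : Qa, ∃ l ∈ Lsp, (b i : ℂ) = (β : ℂ) + l := fun i => SL.mem_Lt (hL0 (b i).2)
  choose β v hv hb using h1
  obtain ⟨r', hr, lam', h2, h3, h4, h5⟩ := exists_extL lam hlam hlog _ v hv
  refine ⟨r', hr, lam', h2, h3, h4, fun t ht => ?_⟩
  have h6 : ∀ i, ∃ y : Fin r' → Qa, ∑ l, y l • lam' l = v i := fun i =>
    (Submodule.mem_span_range_iff_exists_fun Qa).1 (h5 i)
  choose y hy using h6
  have h7 := congrArg L0.subtype (b.sum_repr ⟨t, ht⟩)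
  rw [map_sum] at h7
  simp only [map_smul, Submodule.subtype_apply] at h7
  refine ⟨∑ i, b.repr ⟨t, ht⟩ i * β i, fun l => ∑ i, b.repr ⟨t, ht⟩ i * y i l, ?_⟩
  refine h7.symm.trans ?_
  have h8 : ∀ i, (b.repr ⟨t, ht⟩ i) • ((b i : L0) : ℂ) =
      ((b.repr ⟨t, ht⟩ i * β i : Qa) : ℂ) +
        ∑ l, (b.repr ⟨t, ht⟩ i * y i l) • lam' l := by
    intro i
    rw [hb i, ← hy i, smul_add, Finset.smul_sum]
    congr 1
    · exact Finset.sum_congr rfl fun l _ => by rw [mul_smul]
  rw [Finset.sum_congr rfl fun i _ => h8 i, Finset.sum_add_distrib]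
  congr 1
  · push_cast
    rfl
  · rw [Finset.sum_comm]
    exact Finset.sum_congr rfl fun l _ => by rw [Finset.sum_smul]

end MP60829e.SP
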