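import Pool.Agent.Lib.MP_60829e_nt.SP.Fin
import Pool.Agent.Lib.MP_60829e_nt.SB.Tan

/-! # The arbitrary logarithms lie in a fixed finite-dimensional space -/

open MvPolynomial Module

namespace MP60829e.SP

open MP60829e.ST (Qa Lsp Lt)
open MP60829e.SB (pt pv sub ev_sub)

/-- The values lie in a fixed finite-dimensional space. -/
theorem exists_WP {ζ ι T : Type} [Finite T] {r : ℕ} (lam : Fin r → ℂ)
    (G : T → MvPolynomial (ζ ⊕ ι) ℂ) :
    ∃ W : Submodule Qa ℂ, FiniteDimensional Qa W ∧ ∀ (z : ζ → Qa)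
      (M : ι × Fin r → Qa) (t : T), eval (pv z (pt lam M)) (G t) ∈ W := by
  classical
  have : Fintype T := Fintype.ofFinite T
  obtain ⟨Z, hZ⟩ : ∃ Z : Finset ℂ, Z = Finset.univ.biUnion fun t : T =>
    (sub lam (G t)).support.image fun a => coeff a (sub lam (G t)) := ⟨_, rfl⟩
  refine ⟨Submodule.span Qa (Z : Set ℂ), FiniteDimensional.span_of_finite Qa Z.finite_toSet,
    fun z M t => ?_⟩
  rw [← ev_sub]
  refine TV.ev_mem _ _ _ fun a => ?_
  by_cases ha : coeff a (sub lam (G t)) = 0
  · rw [ha]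
    exact Submodule.zero_mem _
  · apply Submodule.subset_span
    rw [hZ, Finset.mem_coe, Finset.mem_biUnion]
    exact ⟨t, Finset.mem_univ _, Finset.mem_image.2 ⟨a, mem_support_iff.2 ha, rfl⟩⟩

/-- Linear algebra: if the vectors `h t` (with coordinates in a space with the independent family
`ω`) are independent and all `∑ t, y t * h t i + g i` vanish then the `y t` lie in a fixed space. -/
theorem mem_L0 {q p : ℕ} {S : Type} [Fintype S] (ω : Fin q → ℂ)
    (L0 : Submodule Qa ℂ) (h1L : (1 : ℂ) ∈ L0)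
    (hL0 : ∀ v : Fin q → ℂ, (∀ e, v e ∈ Lt) → ∑ e, ω e * v e = 0 → ∀ e, v e ∈ L0)
    (g : Fin p → Fin q → Qa) (h : S → Fin p → Fin q → Qa)
    (hind : ∀ c : S → Qa, (∀ i e, ∑ t, c t * h t i e = 0) → c = 0)
    (y : S → ℂ) (hy : ∀ t, y t ∈ Lt)
    (hsum : ∀ i, ∑ e, (g i e : ℂ) * ω e + ∑ t, y t * ∑ e, (h t i e : ℂ) * ω e = 0) :
    ∀ t, y t ∈ L0 := by
  classical
  have hq : ∀ i e, ∑ t, h t i e • y t ∈ L0 := by
    intro i
    have h1 := hL0 (fun e => (g i e : ℂ) + ∑ t, h t i e • y t) (fun e => by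
      refine Lt.add_mem ?_ (Lt.sum_mem fun t _ => Lt.smul_mem _ (hy t))
      have h2 := Lt.smul_mem (g i e) SL.one_mem_Lt
      rwa [SL.smul_eq, mul_one] at h2) (by
      rw [← hsum i]
      simp only [mul_add, Finset.sum_add_distrib, Finset.mul_sum, SL.smul_eq]
      congr 1
      · exact Finset.sum_congr rfl fun e _ => mul_comm _ _
      · rw [Finset.sum_comm]
        exact Finset.sum_congr rfl fun t _ => Finset.sum_congr rfl fun e _ => by ring)
    intro e
    have h2 := L0.sub_mem (h1 e) (L0.smul_mem (g i e) h1L)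
    rw [SL.smul_eq, mul_one, add_sub_cancel_left] at h2
    exact h2
  -- a left inverse
  let f : (S → Qa) →ₗ[Qa] (Fin p × Fin q → Qa) :=
    { toFun := fun c x => ∑ t, c t * h t x.1 x.2
      map_add' := fun c c' => by
        funext x
        simp only [Pi.add_apply, add_mul, Finset.sum_add_distrib]
      map_smul' := fun a c => by
        funext x
        simp only [Pi.smul_apply, smul_eq_mul, RingHom.id_apply, Finset.mul_sum]
        exact Finset.sum_congr rfl fun t _ => by ring }
  have hf : ∀ c x, f c x = ∑ t, c t * h t x.1 x.2 := fun c x => rfl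
  have hker : LinearMap.ker f = ⊥ := by
    rw [LinearMap.ker_eq_bot']
    intro c hc
    refine hind c fun i e => ?_
    have h1 := congrFun hc (i, e)
    rw [hf] at h1
    exact h1
  obtain ⟨G, hG⟩ := LinearMap.exists_leftInverse_of_injective f hker
  have hGe : ∀ t (x : Fin p × Fin q → Qa), G x t = ∑ u, x u * G (Pi.single u 1) t := by
    intro t x
    conv_lhs => rw [pi_eq_sum_univ' x]
    rw [map_sum, Finset.sum_apply]
    refine Finset.sum_congr rfl fun u _ => ?_
    rw [map_smul, Pi.smul_apply, smul_eq_mul]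
  have hGf : ∀ t t', ∑ u : Fin p × Fin q, h t' u.1 u.2 * G (Pi.single u 1) t =
      if t = t' then 1 else 0 := by
    intro t t'
    have h1 : f (Pi.single t' 1) = fun u => h t' u.1 u.2 := by
      funext u
      rw [hf, Finset.sum_eq_single t']
      · rw [Pi.single_eq_same, one_mul]
      · intro e _ he
        rw [Pi.single_eq_of_ne he, zero_mul]
      · intro h
        exact absurd (Finset.mem_univ _) h
    have h2 : G (f (Pi.single t' 1)) = Pi.single t' 1 := LinearMap.congr_fun hG _
    have h3 := congrFun h2 t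
    rw [h1, hGe, Pi.single_apply] at h3
    exact h3
  intro t
  have h1 : y t = ∑ u : Fin p × Fin q, G (Pi.single u 1) t • ∑ t', h t' u.1 u.2 • y t' := by
    simp only [SL.smul_eq, Finset.mul_sum]
    rw [Finset.sum_comm]
    have h2 : ∀ t', ∑ u : Fin p × Fin q, ((G (Pi.single u 1) t : Qa) : ℂ) *
        ((h t' u.1 u.2 : ℂ) * y t') = if t = t' then y t' else 0 := by
      intro t'
      have h3 : ((∑ u : Fin p × Fin q, h t' u.1 u.2 * G (Pi.single u 1) t : Qa) : ℂ) =
          if t = t' then 1 else 0 := by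
        rw [hGf]
        split_ifs <;> rfl
      push_cast at h3
      calc ∑ u : Fin p × Fin q, ((G (Pi.single u 1) t : Qa) : ℂ) *
            ((h t' u.1 u.2 : ℂ) * y t') =
          (∑ u : Fin p × Fin q, (h t' u.1 u.2 : ℂ) * ((G (Pi.single u 1) t : Qa) : ℂ)) *
            y t' := by
            rw [Finset.sum_mul]
            exact Finset.sum_congr rfl fun e _ => by ring
        _ = if t = t' then y t' else 0 := by
            rw [h3]
            split_ifs <;> simp
    rw [Finset.sum_congr rfl fun t' _ => h2 t']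
    simp
  rw [h1]
  exact L0.sum_mem fun u _ => L0.smul_mem _ (hq u.1 u.2)

/-- If the vectors of the values are independent then the solutions of the relations lie in a fixed
finite-dimensional space. -/
theorem exists_L0P {ζ ι : Type} {s r p : ℕ} (lam : Fin r → ℂ)
    (G : Fin p → MvPolynomial (ζ ⊕ ι) ℂ) (Q : Fin p → Fin s → MvPolynomial (ζ ⊕ ι) ℂ) :
    ∃ L0 : Submodule Qa ℂ, FiniteDimensional Qa L0 ∧ L0 ≤ Lt ∧
      ∀ (z : ζ → Qa) (M : ι × Fin r → Qa) (S : Finset (Fin s)) (y : {t // t ∈ S} → ℂ),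
        (∀ t, y t ∈ Lt) →
        LinearIndependent Qa (fun (t : {t // t ∈ S}) (i : Fin p) =>
          eval (pv z (pt lam M)) (Q i t.1)) →
        (∀ i, eval (pv z (pt lam M)) (G i) + ∑ t, y t * eval (pv z (pt lam M)) (Q i t.1) = 0) →
        ∀ t, y t ∈ L0 := by
  classical
  obtain ⟨W, hWf, hW⟩ := exists_WP lam (T := Fin p ⊕ (Fin p × Fin s))
    (Sum.elim G fun x => Q x.1 x.2)
  let b := finBasis Qa W
  obtain ⟨ω, hω⟩ : ∃ ω : Fin (finrank Qa W) → ℂ, ω = fun e => (b e : ℂ) := ⟨_, rfl⟩
  have hli : LinearIndependent Qa ω := by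
    rw [hω]
    exact b.linearIndependent.map' W.subtype (Submodule.ker_subtype W)
  have hrep : ∀ x (hx : x ∈ W), x = ∑ e, ((b.repr ⟨x, hx⟩ e : Qa) : ℂ) * ω e := by
    intro x hx
    have h1 := congrArg W.subtype (b.sum_repr ⟨x, hx⟩)
    rw [map_sum] at h1
    simp only [map_smul, Submodule.subtype_apply] at h1
    rw [hω]
    exact h1.symm
  obtain ⟨L00, hfin, hle, hL00⟩ := fin_L0 ω hli
  refine ⟨L00 ⊔ Submodule.span Qa {(1 : ℂ)}, ?_, ?_, ?_⟩
  · have h1 : FiniteDimensional Qa (Submodule.span Qa {(1 : ℂ)}) :=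
      FiniteDimensional.span_singleton Qa 1
    exact Submodule.finiteDimensional_sup _ _
  · refine sup_le hle ?_
    rw [Submodule.span_le]
    rintro _ rfl
    exact SL.one_mem_Lt
  · intro z M S y hy hind hsum
    have hQm : ∀ i t, eval (pv z (pt lam M)) (Q i t) ∈ W := fun i t => hW z M (Sum.inr (i, t))
    have hGm : ∀ i, eval (pv z (pt lam M)) (G i) ∈ W := fun i => hW z M (Sum.inl i)
    refine mem_L0 ω _ (Submodule.mem_sup_right (Submodule.mem_span_singleton_self 1))
      (fun v h1 h2 e => Submodule.mem_sup_left (hL00 v h1 h2 e))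
      (fun i e => b.repr ⟨_, hGm i⟩ e) (fun t i e => b.repr ⟨_, hQm i t.1⟩ e) ?_ y hy ?_
    · intro c hc
      funext t
      refine Fintype.linearIndependent_iff.1 hind c ?_ t
      funext i
      rw [Finset.sum_apply, Pi.zero_apply]
      simp only [Pi.smul_apply]
      calc ∑ t, c t • eval (pv z (pt lam M)) (Q i t.1) =
          ∑ t, ∑ e, ((c t * b.repr ⟨_, hQm i t.1⟩ e : Qa) : ℂ) * ω e := by
            refine Finset.sum_congr rfl fun t _ => ?_
            conv_lhs => rw [hrep _ (hQm i t.1)]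
            rw [SL.smul_eq, Finset.mul_sum]
            refine Finset.sum_congr rfl fun e _ => ?_
            push_cast
            ring
        _ = ∑ e, ((∑ t, c t * b.repr ⟨_, hQm i t.1⟩ e : Qa) : ℂ) * ω e := by
            rw [Finset.sum_comm]
            refine Finset.sum_congr rfl fun e _ => ?_
            push_cast
            rw [Finset.sum_mul]
        _ = 0 := by
            refine Finset.sum_eq_zero fun e _ => ?_
            rw [hc i e]
            simp
    · intro i
      rw [← hrep _ (hGm i)]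
      have h1 : ∀ t : {t // t ∈ S}, y t * ∑ e, ((b.repr ⟨_, hQm i t.1⟩ e : Qa) : ℂ) * ω e =
          y t * eval (pv z (pt lam M)) (Q i t.1) := by
        intro t
        rw [← hrep _ (hQm i t.1)]
      rw [Finset.sum_congr rfl fun t _ => h1 t]
      exact hsum i

end MP60829e.SP
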