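import Pool.Agent.Lib.MP_60829e_nt.SP.FinB
import Pool.Agent.Lib.MP_60829e_nt.SP.Claim

/-! # Theorem S with arbitrary further logarithms -/

open MvPolynomial Module

namespace MP60829e.SP

open MP60829e.ST (Qa Lsp Lt)
open MP60829e.PS
open MP60829e.SB (pt pv cls evl rk)

/-- A maximal independent subfamily. -/
theorem exists_subV {ι V : Type} [Fintype ι] [AddCommGroup V] [Module Qa V] (g : ι → V) :
    ∃ Q : Finset ι, LinearIndependent Qa (fun i : {i // i ∈ Q} => g i) ∧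
      ∃ κ : {j // j ∉ Q} × {i // i ∈ Q} → Qa, ∀ j, g j.1 = ∑ i, κ (j, i) • g i.1 := by
  classical
  let P : Finset ι → Prop := fun Q => LinearIndependent Qa (fun i : {i // i ∈ Q} => g i)
  have h0 : P ∅ := by
    have : IsEmpty {i // i ∈ (∅ : Finset ι)} := ⟨fun x => absurd x.2 (Finset.notMem_empty _)⟩
    exact linearIndependent_empty_type
  obtain ⟨Q, hQmem, hQmax⟩ := Finset.exists_max_image
    ((Finset.univ : Finset (Finset ι)).filter P) Finset.card ⟨∅, by simpa using h0⟩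
  have hQ : P Q := (Finset.mem_filter.1 hQmem).2
  have key : ∀ j : {j // j ∉ Q}, g j.1 ∈
      Submodule.span Qa (Set.range fun i : {i // i ∈ Q} => g i) := by
    intro j
    by_contra hj
    have hins : P (insert j.1 Q) := by
      have h1 : LinearIndepOn Qa g (insert j.1 (Q : Set ι)) := by
        rw [linearIndepOn_insert (by simpa using j.2)]
        refine ⟨hQ, ?_⟩
        intro h2
        apply hj
        rwa [Set.image_eq_range] at h2
      have h2 : LinearIndepOn Qa g ((insert j.1 Q : Finset ι) : Set ι) := by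
        rwa [Finset.coe_insert]
      exact h2
    have := hQmax _ (by simpa using hins)
    rw [Finset.card_insert_of_notMem j.2] at this
    omega
  have key2 : ∀ j : {j // j ∉ Q}, ∃ c : {i // i ∈ Q} → Qa, g j.1 = ∑ i, c i • g i.1 := by
    intro j
    obtain ⟨c, hc⟩ := (Submodule.mem_span_range_iff_exists_fun Qa).1 (key j)
    exact ⟨c, hc.symm⟩
  choose c hc using key2
  exact ⟨Q, hQ, fun x => c x.1 x.2, fun j => hc j⟩

theorem sum_red {s : ℕ} (S : Finset (Fin s)) (κ : {t // t ∉ S} × {t // t ∈ S} → Qa)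
    (y : Fin s → ℂ) (u : {t // t ∈ S} → ℂ) (σ : {t // t ∈ S} → Qa) (q : Fin s → ℂ)
    (hu : ∀ t, y t.1 + ∑ t' : {t // t ∉ S}, (κ (t', t) : ℂ) * y t'.1 = u t)
    (hq : ∀ t : {t // t ∉ S}, q t.1 = ∑ t' : {t // t ∈ S}, (κ (t, t') : ℂ) * q t'.1) :
    ∑ t, (y t + ((if h : t ∈ S then σ ⟨t, h⟩ else 0 : Qa) : ℂ)) * q t =
      ∑ t : {t // t ∈ S}, (u t + (σ t : ℂ)) * q t.1 := by
  classical
  rw [sum_splitQ S]
  have h1 : ∀ t : {t // t ∈ S}, (y t.1 + ((if h : t.1 ∈ S then σ ⟨t.1, h⟩ else 0 : Qa) : ℂ)) *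
      q t.1 = (y t.1 + (σ t : ℂ)) * q t.1 := by
    intro t
    rw [dif_pos t.2]
  have h2 : ∀ t : {t // t ∉ S}, (y t.1 + ((if h : t.1 ∈ S then σ ⟨t.1, h⟩ else 0 : Qa) : ℂ)) *
      q t.1 = ∑ t' : {t // t ∈ S}, (κ (t, t') : ℂ) * y t.1 * q t'.1 := by
    intro t
    rw [dif_neg t.2]
    have h3 : ((0 : Qa) : ℂ) = 0 := rfl
    rw [h3, add_zero, hq t, Finset.mul_sum]
    exact Finset.sum_congr rfl fun t' _ => by ring
  rw [Finset.sum_congr rfl fun t _ => h1 t, Finset.sum_congr rfl fun t _ => h2 t,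
    Finset.sum_comm, ← Finset.sum_add_distrib]
  refine Finset.sum_congr rfl fun t _ => ?_
  rw [← hu t, ← Finset.sum_mul]
  ring

section System

variable {N n s p : ℕ} (S : Finset (Fin s))

/-- The new parameters. -/
abbrev Zt (N : ℕ) {s : ℕ} (S : Finset (Fin s)) : Type :=
  Fin N ⊕ (({t // t ∉ S} × {t // t ∈ S}) ⊕ {t // t ∈ S})

/-- The new coordinates. -/
abbrev It (n : ℕ) {s : ℕ} (S : Finset (Fin s)) : Type := Fin n ⊕ {t // t ∈ S}

/-- The old polynomials in the new variables. -/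
noncomputable def lift (P : MvPolynomial (Fin N ⊕ Fin n) ℂ) : MvPolynomial (Zt N S ⊕ It n S) ℂ :=
  rename (Sum.map Sum.inl Sum.inl) P

theorem eval_lift (z : Zt N S → Qa) (x : It n S → ℂ) (P : MvPolynomial (Fin N ⊕ Fin n) ℂ) :
    eval (pv z x) (lift S P) = eval (pv (fun t => z (Sum.inl t)) fun i => x (Sum.inl i)) P := by
  unfold lift
  rw [eval_rename]
  congr 1
  congr 1
  funext t
  rcases t with t | i
  · rfl
  · rfl

/-- The new system. -/
noncomputable def sys (G : Fin p → MvPolynomial (Fin N ⊕ Fin n) ℂ)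
    (Q : Fin p → Fin s → MvPolynomial (Fin N ⊕ Fin n) ℂ) :
    Fin p ⊕ (Fin p × {t // t ∉ S}) → MvPolynomial (Zt N S ⊕ It n S) ℂ :=
  Sum.elim
    (fun i => lift S (G i) + ∑ t : {t // t ∈ S},
      (X (Sum.inr (Sum.inr t)) + X (Sum.inl (Sum.inr (Sum.inr t)))) * lift S (Q i t.1))
    (fun x => lift S (Q x.1 x.2.1) - ∑ t : {t // t ∈ S},
      X (Sum.inl (Sum.inr (Sum.inl (x.2, t)))) * lift S (Q x.1 t.1))

theorem eval_sys_inl (G : Fin p → MvPolynomial (Fin N ⊕ Fin n) ℂ)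
    (Q : Fin p → Fin s → MvPolynomial (Fin N ⊕ Fin n) ℂ) (z : Zt N S → Qa) (x : It n S → ℂ)
    (i : Fin p) :
    eval (pv z x) (sys S G Q (Sum.inl i)) =
      eval (pv (fun t => z (Sum.inl t)) fun i => x (Sum.inl i)) (G i) +
        ∑ t : {t // t ∈ S}, (x (Sum.inr t) + (z (Sum.inr (Sum.inr t)) : ℂ)) *
          eval (pv (fun t => z (Sum.inl t)) fun i => x (Sum.inl i)) (Q i t.1) := by
  unfold sys
  rw [Sum.elim_inl, map_add, eval_lift, map_sum]
  congr 1
  refine Finset.sum_congr rfl fun t _ => ?_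
  rw [map_mul, eval_lift, map_add, eval_X, eval_X]
  rfl

theorem eval_sys_inr (G : Fin p → MvPolynomial (Fin N ⊕ Fin n) ℂ)
    (Q : Fin p → Fin s → MvPolynomial (Fin N ⊕ Fin n) ℂ) (z : Zt N S → Qa) (x : It n S → ℂ)
    (y : Fin p × {t // t ∉ S}) :
    eval (pv z x) (sys S G Q (Sum.inr y)) =
      eval (pv (fun t => z (Sum.inl t)) fun i => x (Sum.inl i)) (Q y.1 y.2.1) -
        ∑ t : {t // t ∈ S}, (z (Sum.inr (Sum.inl (y.2, t))) : ℂ) *
          eval (pv (fun t => z (Sum.inl t)) fun i => x (Sum.inl i)) (Q y.1 t.1) := by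
  unfold sys
  rw [Sum.elim_inr, map_sub, eval_lift, map_sum]
  congr 1
  refine Finset.sum_congr rfl fun t _ => ?_
  rw [map_mul, eval_lift, eval_X]
  rfl

end System

/-- The bad triples: the relations hold at `(z, w, y)`, `w = M lam`, `y` any linear forms in `1` and
logarithms, and every rational subspace of solutions through `(w, y)` has a projection of dimension
at most `j`. -/
def BadP {N n r s p : ℕ} (lam : Fin r → ℂ) (G : Fin p → MvPolynomial (Fin N ⊕ Fin n) ℂ)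
    (Q : Fin p → Fin s → MvPolynomial (Fin N ⊕ Fin n) ℂ) (j : ℕ)
    (z : Fin N → Qa) (M : Fin n × Fin r → Qa) (y : Fin s → ℂ) : Prop :=
  (∀ t, y t ∈ Lt) ∧
    (∀ i, eval (pv z (pt lam M)) (G i) + ∑ t, y t * eval (pv z (pt lam M)) (Q i t) = 0) ∧
    ∀ R : Submodule Qa ((Fin n → Qa) × (Fin s → Qa)),
      (∀ ρ ∈ R, ∀ i, eval (pv z fun b => pt lam M b + (ρ.1 b : ℂ)) (G i) +
        ∑ t, (y t + (ρ.2 t : ℂ)) * eval (pv z fun b => pt lam M b + (ρ.1 b : ℂ)) (Q i t) = 0) →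
      finrank Qa (R.map (LinearMap.fst Qa (Fin n → Qa) (Fin s → Qa))) ≤ j

/-- The extended coordinates. -/
noncomputable def ext {n r r' s : ℕ} (S : Finset (Fin s)) (M : Fin n × Fin r → Qa)
    (Y : {t // t ∈ S} × Fin r' → Qa) (q : It n S × Fin r') : Qa :=
  Sum.elim (fun i => if h : (q.2 : ℕ) < r then M (i, ⟨q.2, h⟩) else 0) (fun t => Y (t, q.2)) q.1

theorem pt_ext_inl {n r r' s : ℕ} (hr : r ≤ r') (lam : Fin r → ℂ) (lam' : Fin r' → ℂ)
    (h : ∀ i : Fin r, lam' (Fin.castLE hr i) = lam i) (S : Finset (Fin s))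
    (M : Fin n × Fin r → Qa) (Y : {t // t ∈ S} × Fin r' → Qa) (i : Fin n) :
    pt lam' (ext S M Y) (Sum.inl i) = pt lam M i := by
  classical
  obtain ⟨d, rfl⟩ : ∃ d, r' = r + d := ⟨r' - r, by omega⟩
  unfold SB.pt ext
  rw [Fin.sum_univ_add]
  have h1 : ∀ l : Fin d, (Sum.elim (fun i => if h : ((Fin.natAdd r l : Fin (r + d)) : ℕ) < r then
      M (i, ⟨(Fin.natAdd r l : Fin (r + d)), h⟩) else 0)
        (fun t => Y (t, Fin.natAdd r l)) (Sum.inl i : It n S) : Qa) • lam' (Fin.natAdd r l) = 0 := by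
    intro l
    have h2 : ¬ (((Fin.natAdd r l : Fin (r + d)) : ℕ) < r) := by
      rw [Fin.val_natAdd]
      omega
    rw [Sum.elim_inl, dif_neg h2, zero_smul]
  rw [Finset.sum_eq_zero fun l _ => h1 l, add_zero]
  refine Finset.sum_congr rfl fun l _ => ?_
  have h3 : (((Fin.castAdd d l : Fin (r + d)) : ℕ) < r) := by
    rw [Fin.val_castAdd]
    exact l.2
  have h4 : lam' (Fin.castAdd d l) = lam l := h l
  rw [Sum.elim_inl, dif_pos h3, h4]
  rfl

theorem pt_ext_inr {n r r' s : ℕ} (lam' : Fin r' → ℂ) (S : Finset (Fin s))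
    (M : Fin n × Fin r → Qa) (Y : {t // t ∈ S} × Fin r' → Qa) (t : {t // t ∈ S}) :
    pt lam' (ext S M Y) (Sum.inr t) = ∑ l, Y (t, l) • lam' l := rfl

/-- The target. -/
noncomputable def tgt (n : ℕ) {s : ℕ} (S : Finset (Fin s)) (q : Fin n × It n S) : Qa :=
  Sum.elim (fun i => if q.1 = i then 1 else 0) (fun _ => 0) q.2

theorem tm_tgt {n r' s : ℕ} (S : Finset (Fin s)) (M : It n S × Fin r' → Qa)
    (q : Fin n × Fin r') : tm (tgt n S) M q = M (Sum.inl q.1, q.2) := by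
  unfold tm tgt
  rw [Fintype.sum_sum_type]
  simp

theorem Tm_tgt {n s : ℕ} (S : Finset (Fin s)) (ρ : It n S → Qa) (i : Fin n) :
    Tm (tgt n S) ρ i = ρ (Sum.inl i) := by
  rw [Tm_apply]
  unfold tgt
  rw [Fintype.sum_sum_type]
  simp

/-- The condition on the rational subspaces for the new system. -/
theorem noT_of_bad {N n r r' s p j : ℕ} (hr : r ≤ r') (lam : Fin r → ℂ) (lam' : Fin r' → ℂ)
    (h : ∀ i : Fin r, lam' (Fin.castLE hr i) = lam i)
    (G : Fin p → MvPolynomial (Fin N ⊕ Fin n) ℂ)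
    (Q : Fin p → Fin s → MvPolynomial (Fin N ⊕ Fin n) ℂ)
    (z : Fin N → Qa) (M : Fin n × Fin r → Qa) (y : Fin s → ℂ) (hb : BadP lam G Q j z M y)
    (S : Finset (Fin s)) (κ : {t // t ∉ S} × {t // t ∈ S} → Qa) (c : {t // t ∈ S} → Qa)
    (Y : {t // t ∈ S} × Fin r' → Qa)
    (hu : ∀ t, y t.1 + ∑ t' : {t // t ∉ S}, (κ (t', t) : ℂ) * y t'.1 =
      (c t : ℂ) + ∑ l, Y (t, l) • lam' l) :
    NoT (sys S G Q) j (Sum.elim z (Sum.elim κ c) : Zt N S → Qa) (pt lam' (ext S M Y))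
      (tgt n S) := by
  classical
  intro R' hR'
  let Λ : (It n S → Qa) →ₗ[Qa] (Fin n → Qa) × (Fin s → Qa) :=
    { toFun := fun ρ => (fun i => ρ (Sum.inl i),
        fun t => if h : t ∈ S then ρ (Sum.inr ⟨t, h⟩) else 0)
      map_add' := fun ρ σ => by
        refine Prod.ext rfl ?_
        funext t
        by_cases ht : t ∈ S
        · simp only [dif_pos ht, Pi.add_apply, Prod.snd_add]
        · simp only [dif_neg ht, Prod.snd_add, Pi.add_apply, add_zero]
      map_smul' := fun a ρ => by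
        refine Prod.ext rfl ?_
        funext t
        by_cases ht : t ∈ S
        · simp only [dif_pos ht, Pi.smul_apply, Prod.smul_snd, RingHom.id_apply]
        · simp only [dif_neg ht, Prod.smul_snd, Pi.smul_apply, RingHom.id_apply, smul_zero] }
  have hΛ1 : ∀ ρ i, (Λ ρ).1 i = ρ (Sum.inl i) := fun ρ i => rfl
  have hΛ2 : ∀ ρ t, (Λ ρ).2 t = if h : t ∈ S then ρ (Sum.inr ⟨t, h⟩) else 0 := fun ρ t => rfl
  have hcomp : (LinearMap.fst Qa (Fin n → Qa) (Fin s → Qa)).comp Λ = Tm (tgt n S) := by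
    refine LinearMap.ext fun ρ => ?_
    funext i
    rw [Tm_tgt]
    rfl
  have h1 := hb.2.2 (R'.map Λ) (by
    rintro _ ⟨ρ, hρ, rfl⟩ i
    have h2 : ∀ (Pp : MvPolynomial (Fin N ⊕ Fin n) ℂ),
        eval (pv (fun t => (Sum.elim z (Sum.elim κ c) : Zt N S → Qa) (Sum.inl t))
          fun b => pt lam' (ext S M Y) (Sum.inl b) + (ρ (Sum.inl b) : ℂ)) Pp =
        eval (pv z fun b => pt lam M b + ((Λ ρ).1 b : ℂ)) Pp := by
      intro Pp
      congr 1
      congr 1
      funext t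
      rcases t with t | b
      · rfl
      · simp only [SB.pv, Sum.elim_inr, hΛ1]
        rw [pt_ext_inl hr lam lam' h]
    have h3 := hR' ρ hρ (Sum.inl i)
    rw [eval_sys_inl] at h3
    simp only [h2] at h3
    have h4 := sum_red S κ y (fun t => (c t : ℂ) + ∑ l, Y (t, l) • lam' l)
      (fun t => ρ (Sum.inr t))
      (fun t => eval (pv z fun b => pt lam M b + ((Λ ρ).1 b : ℂ)) (Q i t)) hu (by
        intro t
        have h5 := hR' ρ hρ (Sum.inr (i, t))
        rw [eval_sys_inr] at h5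
        simp only [h2] at h5
        exact sub_eq_zero.1 h5)
    have h6 : ∑ t, (y t + ((Λ ρ).2 t : ℂ)) *
        eval (pv z fun b => pt lam M b + ((Λ ρ).1 b : ℂ)) (Q i t) =
        ∑ t, (y t + ((if h : t ∈ S then ρ (Sum.inr ⟨t, h⟩) else 0 : Qa) : ℂ)) *
        eval (pv z fun b => pt lam M b + ((Λ ρ).1 b : ℂ)) (Q i t) := rfl
    rw [h6, h4, ← h3]
    congr 1
    refine Finset.sum_congr rfl fun t _ => ?_
    congr 1
    rw [pt_ext_inr]
    show _ = (∑ l, Y (t, l) • lam' l + (ρ (Sum.inr t) : ℂ)) + (c t : ℂ)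
    ring)
  rw [← Submodule.map_comp, hcomp] at h1
  exact h1

/-- The new system vanishes. -/
theorem sys_zero {N n r r' s p j : ℕ} (hr : r ≤ r') (lam : Fin r → ℂ) (lam' : Fin r' → ℂ)
    (h : ∀ i : Fin r, lam' (Fin.castLE hr i) = lam i)
    (G : Fin p → MvPolynomial (Fin N ⊕ Fin n) ℂ)
    (Q : Fin p → Fin s → MvPolynomial (Fin N ⊕ Fin n) ℂ)
    (z : Fin N → Qa) (M : Fin n × Fin r → Qa) (y : Fin s → ℂ) (hb : BadP lam G Q j z M y)
    (S : Finset (Fin s)) (κ : {t // t ∉ S} × {t // t ∈ S} → Qa) (c : {t // t ∈ S} → Qa)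
    (Y : {t // t ∈ S} × Fin r' → Qa)
    (hq : ∀ i (t : {t // t ∉ S}), eval (pv z (pt lam M)) (Q i t.1) =
      ∑ t' : {t // t ∈ S}, (κ (t, t') : ℂ) * eval (pv z (pt lam M)) (Q i t'.1))
    (hu : ∀ t, y t.1 + ∑ t' : {t // t ∉ S}, (κ (t', t) : ℂ) * y t'.1 =
      (c t : ℂ) + ∑ l, Y (t, l) • lam' l) (x : Fin p ⊕ (Fin p × {t // t ∉ S})) :
    eval (pv (Sum.elim z (Sum.elim κ c) : Zt N S → Qa) (pt lam' (ext S M Y))) (sys S G Q x) =
      0 := by
  classical
  have h2 : ∀ (Pp : MvPolynomial (Fin N ⊕ Fin n) ℂ),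
      eval (pv (fun t => (Sum.elim z (Sum.elim κ c) : Zt N S → Qa) (Sum.inl t))
        fun b => pt lam' (ext S M Y) (Sum.inl b)) Pp = eval (pv z (pt lam M)) Pp := by
    intro Pp
    congr 1
    congr 1
    funext t
    rcases t with t | b
    · rfl
    · simp only [SB.pv, Sum.elim_inr]
      rw [pt_ext_inl hr lam lam' h]
  rcases x with i | ⟨i, t⟩
  · rw [eval_sys_inl]
    simp only [h2]
    have h3 := hb.2.1 i
    have h4 := sum_red S κ y (fun t => (c t : ℂ) + ∑ l, Y (t, l) • lam' l)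
      (fun _ => 0) (fun t => eval (pv z (pt lam M)) (Q i t)) hu (hq i)
    have h5 : ∀ t, (y t + ((if h : t ∈ S then (0 : Qa) else 0 : Qa) : ℂ)) *
        eval (pv z (pt lam M)) (Q i t) = y t * eval (pv z (pt lam M)) (Q i t) := by
      intro t
      have h6 : ((if h : t ∈ S then (0 : Qa) else 0 : Qa) : ℂ) = 0 := by
        split_ifs <;> rfl
      rw [h6, add_zero]
    rw [Finset.sum_congr rfl fun t _ => h5 t] at h4
    rw [h4] at h3
    rw [← h3]
    congr 1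
    refine Finset.sum_congr rfl fun t _ => ?_
    congr 1
    rw [pt_ext_inr]
    show (∑ l, Y (t, l) • lam' l) + (c t : ℂ) = _
    have h7 : ((0 : Qa) : ℂ) = 0 := rfl
    rw [h7]
    ring
  · rw [eval_sys_inr]
    simp only [h2]
    rw [hq i t]
    exact sub_self _

/-- Theorem S with arbitrary further logarithms, dimension form. -/
theorem dim_formP {n N r s p j : ℕ} (G : Fin p → MvPolynomial (Fin N ⊕ Fin n) ℂ)
    (Q : Fin p → Fin s → MvPolynomial (Fin N ⊕ Fin n) ℂ) (lam : Fin r → ℂ)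
    (hl : ∀ i, IsAlgebraic ℚ (Complex.exp (lam i))) (hlam : LinearIndependent Qa lam)
    (J : Finset (Fin n × Fin r)) (hJ : N + s + j * r + (n + s - j) * (n + s - 1) < J.card) :
    ∃ P : MvPolynomial (Fin n × Fin r) Qa, P ≠ 0 ∧ P.vars ⊆ J ∧
      ∀ (z : Fin N → Qa) (M : Fin n × Fin r → Qa) (y : Fin s → ℂ),
        BadP lam G Q j z M y → eval M P = 0 := by
  classical
  by_contra hcon
  push Not at hcon
  have hlog : ∀ i, lam i ∈ Lsp := fun i => Submodule.subset_span (hl i)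
  -- the fixed space of the further logarithms
  obtain ⟨L0, hL0f, hL0le, hL0⟩ := exists_L0P lam G Q
  obtain ⟨r', hr, lam', hext, hlam', hlog', hrep⟩ := exists_ext0 lam hlam hlog L0 hL0f hL0le
  -- the ultrafilter
  set I : Type := (Fin N → Qa) × (Fin n × Fin r → Qa) × (Fin s → ℂ) with hI
  set B : Set I := {a | BadP lam G Q j a.1 a.2.1 a.2.2} with hB
  set Y0 : I → J → Qa := fun a t => a.2.1 t.1 with hY0
  have hgen : ∀ P : MvPolynomial J Qa, P ≠ 0 → ∃ a ∈ B, eval (Y0 a) P ≠ 0 := by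
    intro P hP
    have h1 : rename (Subtype.val : J → Fin n × Fin r) P ≠ 0 := by
      intro h0
      exact hP (rename_injective _ Subtype.val_injective (by rw [h0, map_zero]))
    have h2 : (rename (Subtype.val : J → Fin n × Fin r) P).vars ⊆ J := by
      refine (vars_rename _ _).trans fun x hx => ?_
      obtain ⟨y, -, rfl⟩ := Finset.mem_image.1 hx
      exact y.2
    obtain ⟨z, M, y, hb, hM⟩ := hcon _ h1 h2
    refine ⟨(z, M, y), hb, ?_⟩
    rw [eval_rename] at hM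
    exact hM
  obtain ⟨U, hU1, hU2⟩ := FC.exists_ultra Y0 B hgen
  have hind : AlgebraicIndependent Qa fun t : J => UP.mk U fun a => Y0 a t := by
    rw [algebraicIndependent_iff]
    intro P hP
    by_contra hne
    have h1 : UP.mk U (fun i => eval (Y0 i) P) = 0 := by
      rw [← hP]
      exact (FC.up_aeval U Y0 P).symm
    have h2 := UP.mk_eq_zero.1 h1
    obtain ⟨i, hi1, hi2⟩ := (h2.and (hU2 P hne)).exists
    exact hi2 hi1
  have hex : ∀ t : J, ∃ D : Derivation Qa (UP U Qa) (UP U Qa), ∀ t' : J,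
      D (UP.mk U fun a => Y0 a t') = if t' = t then 1 else 0 := fun t =>
    exists_derivation_of_algebraicIndependent hind _
  choose D hD using hex
  have h1 : J.card ≤ rk (⊤ : Submodule (UP U Qa) (Derivation Qa (UP U Qa) (UP U Qa)))
      (cls U fun a : I => a.2.1) := SB.le_rk_of_delta J _ D fun t t' => hD t t'
  -- the choices
  have hE : ∀ᶠ a in (U : Filter I), ∃ S : Finset (Fin s),
      ∃ x : ({t // t ∉ S} × {t // t ∈ S} → Qa) × ({t // t ∈ S} → Qa) ×
        ({t // t ∈ S} × Fin r' → Qa),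
        (∀ i (t : {t // t ∉ S}), eval (pv a.1 (pt lam a.2.1)) (Q i t.1) =
          ∑ t' : {t // t ∈ S}, (x.1 (t, t') : ℂ) * eval (pv a.1 (pt lam a.2.1)) (Q i t'.1)) ∧
        ∀ t : {t // t ∈ S}, a.2.2 t.1 + ∑ t' : {t // t ∉ S}, (x.1 (t', t) : ℂ) * a.2.2 t'.1 =
          (x.2.1 t : ℂ) + ∑ l, x.2.2 (t, l) • lam' l := by
    filter_upwards [hU1] with a ha
    obtain ⟨S, hS1, κ, hκ⟩ := exists_subV fun (t : Fin s) (i : Fin p) =>
      eval (pv a.1 (pt lam a.2.1)) (Q i t)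
    have hκ' : ∀ i (t : {t // t ∉ S}), eval (pv a.1 (pt lam a.2.1)) (Q i t.1) =
        ∑ t' : {t // t ∈ S}, (κ (t, t') : ℂ) * eval (pv a.1 (pt lam a.2.1)) (Q i t'.1) := by
      intro i t
      have h2 := congrFun (hκ t) i
      rw [Finset.sum_apply] at h2
      exact h2
    have hy' : ∀ t : {t // t ∈ S}, a.2.2 t.1 +
        ∑ t' : {t // t ∉ S}, (κ (t', t) : ℂ) * a.2.2 t'.1 ∈ Lt := fun t =>
      Lt.add_mem (ha.1 t.1) (Lt.sum_mem fun t' _ => Lt.smul_mem _ (ha.1 t'.1))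
    have h3 := hL0 a.1 a.2.1 S (fun t => a.2.2 t.1 +
      ∑ t' : {t // t ∉ S}, (κ (t', t) : ℂ) * a.2.2 t'.1) hy' hS1 (by
      intro i
      have h4 := ha.2.1 i
      have h5 := sum_red S κ a.2.2 (fun t => a.2.2 t.1 +
        ∑ t' : {t // t ∉ S}, (κ (t', t) : ℂ) * a.2.2 t'.1) (fun _ => 0)
        (fun t => eval (pv a.1 (pt lam a.2.1)) (Q i t)) (fun t => rfl) (hκ' i)
      have h6 : ∀ t, (a.2.2 t + ((if h : t ∈ S then (0 : Qa) else 0 : Qa) : ℂ)) *
          eval (pv a.1 (pt lam a.2.1)) (Q i t) =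
          a.2.2 t * eval (pv a.1 (pt lam a.2.1)) (Q i t) := by
        intro t
        have h7 : ((if h : t ∈ S then (0 : Qa) else 0 : Qa) : ℂ) = 0 := by
          split_ifs <;> rfl
        rw [h7, add_zero]
      have h8 : ((0 : Qa) : ℂ) = 0 := rfl
      rw [Finset.sum_congr rfl fun t _ => h6 t] at h5
      simp only [h8, add_zero] at h5
      rw [← h5]
      exact h4)
    have h9 : ∀ t : {t // t ∈ S}, ∃ (c : Qa) (Y : Fin r' → Qa), a.2.2 t.1 +
        ∑ t' : {t // t ∉ S}, (κ (t', t) : ℂ) * a.2.2 t'.1 = (c : ℂ) + ∑ l, Y l • lam' l :=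
      fun t => hrep _ (h3 t)
    choose c Y hcY using h9
    exact ⟨S, (κ, c, fun q => Y q.1 q.2), hκ', hcY⟩
  obtain ⟨S, hS⟩ := SL.pick_ex U _ hE
  obtain ⟨f, hf⟩ := hS.choice
  obtain ⟨κ, hκ⟩ : ∃ κ : I → {t // t ∉ S} × {t // t ∈ S} → Qa, κ = fun a => (f a).1 := ⟨_, rfl⟩
  obtain ⟨c, hc⟩ : ∃ c : I → {t // t ∈ S} → Qa, c = fun a => (f a).2.1 := ⟨_, rfl⟩
  obtain ⟨Y, hY⟩ : ∃ Y : I → {t // t ∈ S} × Fin r' → Qa, Y = fun a => (f a).2.2 := ⟨_, rfl⟩
  obtain ⟨z, hz⟩ : ∃ z : I → Fin N → Qa, z = fun a => a.1 := ⟨_, rfl⟩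
  obtain ⟨M, hM⟩ : ∃ M : I → Fin n × Fin r → Qa, M = fun a => a.2.1 := ⟨_, rfl⟩
  rw [← hM] at h1
  -- the spaces of derivations
  obtain ⟨Δ1, hΔ1⟩ : ∃ Δ1, Δ1 = (⊤ : Submodule (UP U Qa) (Derivation Qa (UP U Qa) (UP U Qa))) ⊓
    LinearMap.ker (evl (cls U z)) := ⟨_, rfl⟩
  obtain ⟨Δ2, hΔ2⟩ : ∃ Δ2, Δ2 = Δ1 ⊓ LinearMap.ker (evl (cls U κ)) := ⟨_, rfl⟩
  obtain ⟨Δ3, hΔ3⟩ : ∃ Δ3, Δ3 = Δ2 ⊓ LinearMap.ker (evl (cls U c)) := ⟨_, rfl⟩
  have k1 : rk (⊤ : Submodule (UP U Qa) (Derivation Qa (UP U Qa) (UP U Qa))) (cls U M) ≤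
      rk Δ1 (cls U M) +
        rk (⊤ : Submodule (UP U Qa) (Derivation Qa (UP U Qa) (UP U Qa))) (cls U z) := by
    rw [hΔ1]
    exact SB.rk_split _ _ _
  have k2 : rk Δ1 (cls U M) ≤ rk Δ2 (cls U M) + rk Δ1 (cls U κ) := by
    rw [hΔ2]
    exact SB.rk_split Δ1 _ _
  have k3 : rk Δ2 (cls U M) ≤ rk Δ3 (cls U M) + rk Δ2 (cls U c) := by
    rw [hΔ3]
    exact SB.rk_split Δ2 _ _
  have c1 : rk (⊤ : Submodule (UP U Qa) (Derivation Qa (UP U Qa) (UP U Qa))) (cls U z) ≤ N := by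
    have := SB.rk_le_card (⊤ : Submodule (UP U Qa) (Derivation Qa (UP U Qa) (UP U Qa))) (cls U z)
    rwa [Fintype.card_fin] at this
  have c2 : rk Δ1 (cls U κ) ≤ (s - S.card) * S.card := by
    have := SB.rk_le_card Δ1 (cls U κ)
    rwa [Fintype.card_prod, Fintype.card_subtype_compl, Fintype.card_coe, Fintype.card_fin] at this
  have c3 : rk Δ2 (cls U c) ≤ S.card := by
    have := SB.rk_le_card Δ2 (cls U c)
    rwa [Fintype.card_coe] at this
  have hSs : S.card ≤ s := by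
    have := Finset.card_le_univ S
    rwa [Fintype.card_fin] at this
  have hcardI : Fintype.card (It n S) = n + S.card := by
    rw [Fintype.card_sum, Fintype.card_fin, Fintype.card_coe]
  -- the target
  obtain ⟨M', hM'⟩ : ∃ M' : I → It n S × Fin r' → Qa, M' = fun a => ext S (M a) (Y a) := ⟨_, rfl⟩
  have htm : ∀ a q, tm (tgt n S) (M' a) q =
      if h : (q.2 : ℕ) < r then M a (q.1, ⟨q.2, h⟩) else 0 := by
    intro a q
    rw [tm_tgt, hM']
    rfl
  have k4 : rk Δ3 (cls U M) ≤ rk Δ3 (cls U fun a => tm (tgt n S) (M' a)) := by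
    refine SB.rk_le_of_forall Δ3 _ _ fun D _ h q => ?_
    have h2 := h (q.1, Fin.castLE hr q.2)
    have h3 : cls U (fun a => tm (tgt n S) (M' a)) (q.1, Fin.castLE hr q.2) = cls U M q := by
      show UP.mk U (fun a => tm (tgt n S) (M' a) (q.1, Fin.castLE hr q.2)) =
        UP.mk U fun a => M a q
      congr 1
      funext a
      rw [htm]
      have h4 : ((Fin.castLE hr q.2 : Fin r') : ℕ) < r := q.2.2
      rw [dif_pos h4]
      rfl
    rw [h3] at h2
    exact h2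
  have hcol : ∀ D ∈ Δ3, ∀ (b : Fin n) (l : Fin r'), r ≤ l →
      D ((cls U fun a => tm (tgt n S) (M' a)) (b, l)) = 0 := by
    intro D _ b l hl
    have h3 : cls U (fun a => tm (tgt n S) (M' a)) (b, l) = 0 := by
      show UP.mk U (fun a => tm (tgt n S) (M' a) (b, l)) = 0
      rw [UP.mk_eq_zero]
      refine Filter.Eventually.of_forall fun a => ?_
      have h4 : ¬ ((((b, l) : Fin n × Fin r').2 : ℕ) < r) := not_lt.2 hl
      rw [htm, dif_neg h4]
    rw [h3, map_zero]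
  have k5 : rk Δ3 (cls U fun a => tm (tgt n S) (M' a)) ≤
      j * r + (n + S.card - j) * (n + S.card - 1) := by
    refine claimP hr lam' hlam' hlog' U j (P := Fin n) (n + S.card) (Zt N S) (It n S) hcardI
      (sys S G Q) (fun a => Sum.elim (z a) (Sum.elim (κ a) (c a))) M' (fun _ => tgt n S) Δ3
      ?_ ?_ hcol ?_ ?_
    · rintro D hD (t | t | t)
      · rw [hΔ3, hΔ2, hΔ1] at hD
        exact congrFun (LinearMap.mem_ker.1 hD.1.1.2) t
      · rw [hΔ3, hΔ2] at hD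
        exact congrFun (LinearMap.mem_ker.1 hD.1.2) t
      · rw [hΔ3] at hD
        exact congrFun (LinearMap.mem_ker.1 hD.2) t
    · intro D _ q
      have h3 : cls U (fun _ : I => tgt n S) q = algebraMap Qa (UP U Qa) (tgt n S q) := rfl
      rw [h3, Derivation.map_algebraMap]
    · filter_upwards [hU1, hf] with a ha1 ha2 x
      rw [hM', hM, hz, hκ, hc, hY]
      exact sys_zero hr lam lam' hext G Q a.1 a.2.1 a.2.2 ha1 S _ _ _ ha2.1 ha2.2 x
    · filter_upwards [hU1, hf] with a ha1 ha2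
      rw [hM', hM, hz, hκ, hc, hY]
      exact noT_of_bad hr lam lam' hext G Q a.1 a.2.1 a.2.2 ha1 S _ _ _ ha2.2
  -- numbers
  have hJle : J.card ≤ n * r := by
    have := Finset.card_le_univ J
    rwa [Fintype.card_prod, Fintype.card_fin, Fintype.card_fin] at this
  have hjn : j < n := by
    by_contra hjn
    have h2 : n * r ≤ j * r := Nat.mul_le_mul_right r (not_lt.1 hjn)
    omega
  obtain ⟨g, hg⟩ : ∃ g, n = j + g + 1 := ⟨n - j - 1, by omega⟩
  obtain ⟨d, hd⟩ : ∃ d, s = S.card + d := ⟨s - S.card, by omega⟩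
  obtain ⟨e, he⟩ : ∃ e, e = S.card := ⟨_, rfl⟩
  rw [← he] at c2 c3 k5 hd
  have e1 : n + e - j = g + 1 + e := by omega
  have e2 : n + e - 1 = j + g + e := by omega
  have e3 : n + s - j = g + 1 + e + d := by omega
  have e4 : n + s - 1 = j + g + e + d := by omega
  have e5 : s - e = d := by omega
  rw [e1, e2] at k5
  rw [e3, e4] at hJ
  rw [e5] at c2
  have e6 : (g + 1 + e + d) * (j + g + e + d) = (g + 1 + e) * (j + g + e) + d * e +
      (d * (g + 1) + d * (j + g + e) + d * d) := by ring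
  omega

end MP60829e.SP
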