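import Pool.Agent.Lib.MP_60829e_nt.SP.Main

/-! # Theorem S with arbitrary further logarithms, independence over the rational numbers -/

open MvPolynomial Module

namespace MP60829e.SP

open MP60829e.ST (Qa Lsp Lt)
open MP60829e.PS

/-- Baker: independence over the algebraic numbers. -/
private theorem li_qa {r : ℕ} (l : Fin r → ℂ)
    (hl : ∀ b, IsAlgebraic ℚ (Complex.exp (l b))) (hli : LinearIndependent ℚ l) :
    LinearIndependent Qa l := by
  rw [Fintype.linearIndependent_iff]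
  intro g hg i
  have h1 : ∑ i, l i * ((g i : Qa) : ℂ) = 0 := by
    rw [← hg]
    refine Finset.sum_congr rfl fun i _ => ?_
    rw [mul_comm]
    rfl
  have h2 := Pool.Agent.Lib.MP_60829e_nt.Bk.baker_hom l hl hli (fun i => ((g i : Qa) : ℂ))
    (fun i => (mem_algebraicClosure_iff.1 (g i).2)) h1 i
  exact Subtype.ext h2

/-- Dimension form. -/
theorem dim_formQ {n N r s p j : ℕ} (G : Fin p → MvPolynomial (Fin N ⊕ Fin n) ℂ)
    (Q : Fin p → Fin s → MvPolynomial (Fin N ⊕ Fin n) ℂ) (lam : Fin r → ℂ)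
    (hl : ∀ i, IsAlgebraic ℚ (Complex.exp (lam i))) (hlam : LinearIndependent ℚ lam)
    (J : Finset (Fin n × Fin r)) (hJ : N + s + j * r + (n + s - j) * (n + s - 1) < J.card) :
    ∃ P : MvPolynomial (Fin n × Fin r) Qa, P ≠ 0 ∧ P.vars ⊆ J ∧
      ∀ (z : Fin N → Qa) (M : Fin n × Fin r → Qa) (y : Fin s → ℂ),
        BadP lam G Q j z M y → eval M P = 0 :=
  dim_formP G Q lam hl (li_qa lam hl hlam) J hJ

/-- Counting form. -/
theorem count_formQ {n r d : ℕ} (B : Set (Fin n × Fin r → Qa))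
    (h : ∀ J : Finset (Fin n × Fin r), d < J.card →
      ∃ P : MvPolynomial (Fin n × Fin r) Qa, P ≠ 0 ∧ P.vars ⊆ J ∧ ∀ M ∈ B, eval M P = 0) :
    ∃ K : ℕ, ∀ S : Finset Qa, S.Nonempty →
      {M : Fin n × Fin r → Qa | M ∈ B ∧ ∀ q, M q ∈ S}.ncard ≤ K * S.card ^ d := by
  obtain ⟨K, hK⟩ := SL.count_of_dim B h
  refine ⟨K, fun S hS => ?_⟩
  have h3 : {M : Fin n × Fin r → Qa | M ∈ B ∧ ∀ q, M q ∈ S} =
      {M : Fin n × Fin r → Qa | (∀ q, M q ∈ S) ∧ M ∈ B} := by
    ext M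
    exact and_comm
  rw [h3]
  exact hK S hS

end MP60829e.SP
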